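import Pool.Agent.Helper40.MT.Defs2
import Pool.Agent.Helper43.MT.LIE

/-!
# ABS: absolute irreducibility in the presence of a regular nilpotent element
-/

set_option autoImplicit false

namespace MT

/-- a matrix commuting with a regular nilpotent matrix is the sum of a scalar and a nilpotent
matrix -/
theorem abs_nil {C : Type} [Field C] {m : ℕ} (N U : Matrix (Fin (m + 1)) (Fin (m + 1)) C)
    (h0 : N ^ (m + 1) = 0) (h1 : N ^ m ≠ 0) (hU : U * N = N * U) :
    ∃ c : C, IsNilpotent (U - c • (1 : Matrix (Fin (m + 1)) (Fin (m + 1)) C)) := by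
  classical
  obtain ⟨v, hv⟩ : ∃ v, (N ^ m).mulVec v ≠ 0 := by
    by_contra hc
    push Not at hc
    apply h1
    apply (Matrix.toLin' (R := C)).injective
    rw [map_zero]
    apply LinearMap.ext
    intro y
    rw [Matrix.toLin'_apply, hc, LinearMap.zero_apply]
  obtain ⟨P, hP, -⟩ := chain_basis N v h0 hv
  obtain ⟨c, hc⟩ : ∃ c : Fin (m + 1) → C,
      (P : Matrix (Fin (m + 1)) (Fin (m + 1)) C).mulVec c = U.mulVec v := by
    refine ⟨((P⁻¹ : Matrix.GeneralLinearGroup (Fin (m + 1)) C) :
      Matrix (Fin (m + 1)) (Fin (m + 1)) C).mulVec (U.mulVec v), ?_⟩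
    rw [Matrix.mulVec_mulVec, ← Units.val_mul, mul_inv_cancel, Units.val_one, Matrix.one_mulVec]
  have hUN : ∀ j : ℕ, U * N ^ j = N ^ j * U := fun j => (Commute.pow_right hU j)
  let Q : Matrix (Fin (m + 1)) (Fin (m + 1)) C := ∑ j : Fin (m + 1), c j • N ^ (j : ℕ)
  have hQN : ∀ j : ℕ, Q * N ^ j = N ^ j * Q := by
    intro j
    simp only [Q, Finset.sum_mul, Finset.mul_sum, smul_mul_assoc, mul_smul_comm, ← pow_add,
      add_comm]
  have hQv : Q.mulVec v = U.mulVec v := by
    rw [← hc]
    ext i
    simp only [Q, Matrix.sum_mulVec, Matrix.smul_mulVec, Finset.sum_apply, Pi.smul_apply,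
      smul_eq_mul]
    simp only [Matrix.mulVec, dotProduct, hP]
    exact Finset.sum_congr rfl fun j _ => mul_comm _ _
  have hUQ : U = Q := by
    have h2 : U * (P : Matrix (Fin (m + 1)) (Fin (m + 1)) C) = Q * P := by
      ext i j
      have e1 : ∀ A : Matrix (Fin (m + 1)) (Fin (m + 1)) C,
          (A * (P : Matrix (Fin (m + 1)) (Fin (m + 1)) C)) i j =
            A.mulVec ((N ^ (j : ℕ)).mulVec v) i := by
        intro A
        rw [Matrix.mul_apply]
        simp only [hP]
        rfl
      rw [e1, e1, Matrix.mulVec_mulVec, Matrix.mulVec_mulVec, hUN, hQN, ← Matrix.mulVec_mulVec,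
        ← Matrix.mulVec_mulVec, hQv]
    have h3 := congrArg (fun A => A * ((P⁻¹ : Matrix.GeneralLinearGroup (Fin (m + 1)) C) :
      Matrix (Fin (m + 1)) (Fin (m + 1)) C)) h2
    simp only [mul_assoc, ← Units.val_mul, mul_inv_cancel, Units.val_one, mul_one] at h3
    exact h3
  refine ⟨c 0, ?_⟩
  have h4 : U - c 0 • (1 : Matrix (Fin (m + 1)) (Fin (m + 1)) C) =
      N * ∑ j : Fin m, c j.succ • N ^ (j : ℕ) := by
    rw [hUQ, show Q = ∑ j : Fin (m + 1), c j • N ^ (j : ℕ) from rfl, Fin.sum_univ_succ]
    simp only [Fin.val_zero, pow_zero, Fin.val_succ, add_sub_cancel_left, Finset.mul_sum,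
      mul_smul_comm, pow_succ']
  rw [h4]
  apply Commute.isNilpotent_mul_right
  · show N * _ = _ * N
    simp only [Finset.mul_sum, Finset.sum_mul, smul_mul_assoc, mul_smul_comm, ← pow_succ,
      ← pow_succ']
  · exact ⟨m + 1, h0⟩

/-- the commutant is the field of scalars -/
theorem abs_comm (K C : Type) [Field K] [CharZero K] [Field C] [Algebra K C] (m : ℕ)
    (G : Subgroup (Matrix.GeneralLinearGroup (Fin (m + 1)) K))
    (N : Matrix (Fin (m + 1)) (Fin (m + 1)) C)
    (h0 : N ^ (m + 1) = 0) (h1 : N ^ m ≠ 0)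
    (irr : ∀ W : Submodule K (Fin (m + 1) → K), (∀ g ∈ G, ∀ v ∈ W,
      (g : Matrix (Fin (m + 1)) (Fin (m + 1)) K).mulVec v ∈ W) → W = ⊥ ∨ W = ⊤)
    (u : Matrix (Fin (m + 1)) (Fin (m + 1)) K)
    (hu : ∀ g ∈ G, (g : Matrix (Fin (m + 1)) (Fin (m + 1)) K) * u =
      u * (g : Matrix (Fin (m + 1)) (Fin (m + 1)) K))
    (hN : u.map (algebraMap K C) * N = N * u.map (algebraMap K C)) :
    ∃ a : K, u = a • (1 : Matrix (Fin (m + 1)) (Fin (m + 1)) K) := by
  classical
  have : CharZero C := charZero_of_injective_algebraMap (algebraMap K C).injective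
  obtain ⟨c, hc⟩ := abs_nil N (u.map (algebraMap K C)) h0 h1 hN
  have htr : (u.map (algebraMap K C) - c • (1 : Matrix (Fin (m + 1)) (Fin (m + 1)) C)).trace = 0 :=
    (Matrix.isNilpotent_trace_of_isNilpotent hc).eq_zero
  have hn : ((m : K) + 1) ≠ 0 := by exact_mod_cast Nat.succ_ne_zero m
  have hnC : ((m : C) + 1) ≠ 0 := by exact_mod_cast Nat.succ_ne_zero m
  have htu : (u.map (algebraMap K C)).trace = algebraMap K C u.trace := by
    rw [Matrix.trace, Matrix.trace, map_sum]
    rfl
  have hc2 : c = algebraMap K C (u.trace / ((m : K) + 1)) := by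
    rw [Matrix.trace_sub, Matrix.trace_smul, Matrix.trace_one, Fintype.card_fin, htu,
      sub_eq_zero] at htr
    rw [map_div₀, htr, map_add, map_natCast, map_one]
    rw [smul_eq_mul]
    push_cast
    field_simp
  refine ⟨u.trace / ((m : K) + 1), ?_⟩
  set a := u.trace / ((m : K) + 1) with ha
  have hmap : u.map (algebraMap K C) - c • (1 : Matrix (Fin (m + 1)) (Fin (m + 1)) C) =
      (algebraMap K C).mapMatrix (u - a • 1) := by
    rw [map_sub, hc2]
    congr 1
    ext i j
    rw [RingHom.mapMatrix_apply, Matrix.map_apply, Matrix.smul_apply, Matrix.smul_apply,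
      smul_eq_mul, smul_eq_mul, map_mul]
    congr 1
    by_cases hij : i = j
    · subst hij
      rw [Matrix.one_apply_eq, Matrix.one_apply_eq, map_one]
    · rw [Matrix.one_apply_ne hij, Matrix.one_apply_ne hij, map_zero]
  rw [hmap] at hc
  have hnil : IsNilpotent (u - a • (1 : Matrix (Fin (m + 1)) (Fin (m + 1)) K)) := by
    obtain ⟨k, hk⟩ := hc
    refine ⟨k, ?_⟩
    rw [← map_pow] at hk
    have hinj : Function.Injective ((algebraMap K C).mapMatrix (m := Fin (m + 1))) := by
      intro A B hAB
      ext i j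
      have := congrFun (congrFun hAB i) j
      exact (algebraMap K C).injective this
    exact hinj (by rw [hk, map_zero])
  have hdet : (u - a • (1 : Matrix (Fin (m + 1)) (Fin (m + 1)) K)).det = 0 := by
    obtain ⟨k, hk⟩ := hnil
    have h2 := congrArg Matrix.det hk
    rw [Matrix.det_pow, Matrix.det_zero] at h2
    exact eq_zero_of_pow_eq_zero h2
  obtain ⟨v, hv, hv2⟩ := Matrix.exists_mulVec_eq_zero_iff.2 hdet
  rcases irr (LinearMap.ker (u - a • 1).mulVecLin) (by
    intro g hg x hx
    rw [LinearMap.mem_ker, Matrix.mulVecLin_apply] at hx ⊢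
    have h2 : (u - a • 1) * (g : Matrix (Fin (m + 1)) (Fin (m + 1)) K) =
        (g : Matrix (Fin (m + 1)) (Fin (m + 1)) K) * (u - a • 1) := by
      rw [sub_mul, mul_sub, hu g hg, smul_mul_assoc, mul_smul_comm, one_mul, mul_one]
    rw [Matrix.mulVec_mulVec, h2, ← Matrix.mulVec_mulVec, hx, Matrix.mulVec_zero]) with h | h
  · exfalso
    apply hv
    have h2 : v ∈ LinearMap.ker (u - a • 1).mulVecLin := by
      rw [LinearMap.mem_ker, Matrix.mulVecLin_apply, hv2]
    rw [h] at h2
    exact (Submodule.mem_bot K).1 h2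
  · rw [LinearMap.ker_eq_top] at h
    have h2 : u - a • 1 = 0 := by
      apply (Matrix.toLin' (R := K)).injective
      rw [Matrix.toLin'_apply', h, map_zero]
    exact sub_eq_zero.1 h2

/-- the density theorem: an irreducible group with scalar commutant spans all matrices -/
theorem abs_dens (K : Type) [Field K] (n : ℕ) (hn : 1 ≤ n)
    (G : Subgroup (Matrix.GeneralLinearGroup (Fin n) K))
    (irr : ∀ W : Submodule K (Fin n → K), (∀ g ∈ G, ∀ v ∈ W,
      (g : Matrix (Fin n) (Fin n) K).mulVec v ∈ W) → W = ⊥ ∨ W = ⊤)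
    (hcomm : ∀ u : Matrix (Fin n) (Fin n) K, (∀ g ∈ G, (g : Matrix (Fin n) (Fin n) K) * u =
      u * (g : Matrix (Fin n) (Fin n) K)) → ∃ a : K, u = a • 1)
    (P : Matrix (Fin n) (Fin n) K → Prop) (hG : ∀ g ∈ G, P (g : Matrix (Fin n) (Fin n) K))
    (hsc : ∀ a : K, P (algebraMap K _ a)) (hadd : ∀ A B, P A → P B → P (A + B))
    (hmul : ∀ A B, P A → P B → P (A * B)) (A : Matrix (Fin n) (Fin n) K) : P A := by
  classical
  let V := Fin n → K
  let R : Subalgebra K (Module.End K V) := Algebra.adjoin K
    {T | ∃ g ∈ G, T = Matrix.toLin' (g : Matrix (Fin n) (Fin n) K)}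
  have hgR : ∀ g ∈ G, Matrix.toLin' (g : Matrix (Fin n) (Fin n) K) ∈ R :=
    fun g hg => Algebra.subset_adjoin ⟨g, hg, rfl⟩
  have : Nonempty (Fin n) := ⟨⟨0, hn⟩⟩
  have : Nontrivial V := inferInstance
  have hsimp : IsSimpleModule R V := by
    rw [isSimpleModule_iff]
    refine ⟨?_⟩
    intro W
    let W' : Submodule K V :=
      { carrier := W
        add_mem' := fun ha hb => W.add_mem ha hb
        zero_mem' := W.zero_mem
        smul_mem' := fun a x hx => by
          have := W.smul_mem (algebraMap K R a) hx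
          exact this }
    rcases irr W' (by
      intro g hg v hv
      have := W.smul_mem (⟨_, hgR g hg⟩ : R) (show v ∈ W from hv)
      exact this) with h | h
    · left
      ext x
      have : x ∈ W' ↔ x ∈ (⊥ : Submodule K V) := by rw [h]
      exact this
    · right
      ext x
      have : x ∈ W' ↔ x ∈ (⊤ : Submodule K V) := by rw [h]
      exact this
  have hscal : ∀ u : Module.End R V, ∃ a : K, ∀ x, u x = a • x := by
    intro u
    let u' : Module.End K V :=
      { toFun := u
        map_add' := u.map_add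
        map_smul' := fun a x => u.map_smul (algebraMap K R a) x }
    obtain ⟨a, ha⟩ := hcomm (LinearMap.toMatrix' u') (by
      intro g hg
      apply (Matrix.toLin' (R := K)).injective
      rw [Matrix.toLin'_mul, Matrix.toLin'_mul, Matrix.toLin'_toMatrix']
      apply LinearMap.ext
      intro x
      exact (u.map_smul (⟨_, hgR g hg⟩ : R) x).symm)
    refine ⟨a, fun x => ?_⟩
    have h2 : u' = a • 1 := by
      rw [← Matrix.toLin'_toMatrix' u', ha, map_smul, Matrix.toLin'_one]
      rfl
    exact congrArg (fun T : Module.End K V => T x) h2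
  let T : Module.End K V := Matrix.toLin' A
  let f : Module.End (Module.End R V) V :=
    { toFun := T
      map_add' := T.map_add
      map_smul' := fun u x => by
        obtain ⟨a, ha⟩ := hscal u
        change T (u x) = u (T x)
        rw [ha, ha, map_smul] }
  obtain ⟨r, hr⟩ := jacobson_density (R := R) (M := V) f
    (Finset.univ.image fun i : Fin n => (Pi.single i 1 : V))
  have hrT : (r : Module.End K V) = T := by
    apply LinearMap.pi_ext'
    intro i
    apply LinearMap.ext_ring
    have := hr (Pi.single i 1) (Finset.mem_image_of_mem _ (Finset.mem_univ i))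
    exact this.symm
  have key : ∀ S ∈ R, P (LinearMap.toMatrix' S) := by
    intro S hS
    induction hS using Algebra.adjoin_induction with
    | mem x hx =>
      obtain ⟨g, hg, rfl⟩ := hx
      rw [LinearMap.toMatrix'_toLin']
      exact hG g hg
    | algebraMap a =>
      have : LinearMap.toMatrix' (algebraMap K (Module.End K V) a) =
          algebraMap K (Matrix (Fin n) (Fin n) K) a := by
        rw [LinearMap.toMatrix'_algebraMap]
        rfl
      rw [this]
      exact hsc a
    | add x y _ _ hx hy =>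
      rw [map_add]
      exact hadd _ _ hx hy
    | mul x y _ _ hx hy =>
      rw [LinearMap.toMatrix'_mul]
      exact hmul _ _ hx hy
  have := key T (hrT ▸ r.2)
  rwa [LinearMap.toMatrix'_toLin'] at this

theorem st_ABS : ST_ABS := by
  intro K C _ _ _ _ n G N h0 h1 hN irr W hW
  classical
  rcases Nat.eq_zero_or_pos n with rfl | hn
  · exact absurd (Subsingleton.elim _ _) h1
  obtain ⟨m, rfl⟩ := Nat.exists_eq_succ_of_ne_zero hn.ne'
  have hall : ∀ A : Matrix (Fin (m + 1)) (Fin (m + 1)) K, ∀ v ∈ W,
      (A.map (algebraMap K C)).mulVec v ∈ W := by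
    refine abs_dens K (m + 1) hn G irr
      (fun u hu => abs_comm K C m G N h0 h1 irr u hu (hN u hu))
      (fun A => ∀ v ∈ W, (A.map (algebraMap K C)).mulVec v ∈ W) hW ?_ ?_ ?_
    · intro a v hv
      have : (algebraMap K (Matrix (Fin (m + 1)) (Fin (m + 1)) K) a).map (algebraMap K C) =
          algebraMap C _ (algebraMap K C a) := by
        ext i j
        rw [Matrix.map_apply, Matrix.algebraMap_matrix_apply, Matrix.algebraMap_matrix_apply]
        split_ifs
        · rfl
        · exact map_zero _
      rw [this, Algebra.algebraMap_eq_smul_one, Matrix.smul_mulVec, Matrix.one_mulVec]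
      exact W.smul_mem _ hv
    · intro A B hA hB v hv
      have : (A + B).map (algebraMap K C) = A.map (algebraMap K C) + B.map (algebraMap K C) :=
        map_add (algebraMap K C).mapMatrix A B
      rw [this, Matrix.add_mulVec]
      exact W.add_mem (hA v hv) (hB v hv)
    · intro A B hA hB v hv
      have : (A * B).map (algebraMap K C) = A.map (algebraMap K C) * B.map (algebraMap K C) :=
        map_mul (algebraMap K C).mapMatrix A B
      rw [this, ← Matrix.mulVec_mulVec]
      exact hA _ (hB v hv)
  by_cases hW0 : W = ⊥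
  · exact Or.inl hW0
  right
  obtain ⟨v, hv, hv0⟩ := W.ne_bot_iff.1 hW0
  obtain ⟨j, hj⟩ : ∃ j, v j ≠ 0 := by
    by_contra hc
    push Not at hc
    exact hv0 (funext hc)
  have hsing : ∀ i, (Pi.single i 1 : Fin (m + 1) → C) ∈ W := by
    intro i
    have h2 := W.smul_mem (v j)⁻¹ (hall (Matrix.single i j 1) v hv)
    have h3 : (v j)⁻¹ • ((Matrix.single i j (1 : K)).map (algebraMap K C)).mulVec v =
        Pi.single i 1 := by
      have h4 : (Matrix.single i j (1 : K)).map (algebraMap K C) = Matrix.single i j (1 : C) := by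
        ext a b
        rw [Matrix.map_apply, Matrix.single_apply, Matrix.single_apply]
        split_ifs
        · exact map_one _
        · exact map_zero _
      rw [h4, Matrix.single_mulVec]
      ext a
      rw [Pi.smul_apply]
      by_cases ha : a = i
      · subst ha
        simp [hj]
      · simp [ha]
    rwa [h3] at h2
  rw [eq_top_iff]
  intro x _
  have : x = ∑ i, x i • (Pi.single i 1 : Fin (m + 1) → C) := by
    ext a
    simp [Finset.sum_apply, Pi.single_apply]
  rw [this]
  exact W.sum_mem fun i _ => W.smul_mem _ (hsing i)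

end MT
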