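import Pool.Agent.Helper35.MT.GrdPoly
import Pool.Agent.Helper8.MT.PSR
import Pool.Agent.Helper3.MT.ZAR
import Pool.Agent.Helper40.MT.Stmts

/-!
# MT, module GRD: the grading element
-/

set_option autoImplicit false

open scoped Classical
open Matrix

namespace MT

section

variable {K : Type} [Field K] {n : ℕ}

/-- the left invariant derivation at the identity -/
lemma grd_ldv (A : Matrix (Fin n) (Fin n) K) (f : MvPolynomial (Fin n × Fin n) K) :
    ev (1 : Matrix (Fin n) (Fin n) K) (ldv A f) =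
      ∑ i, ∑ j, A i j * ev (1 : Matrix (Fin n) (Fin n) K) (MvPolynomial.pderiv (i, j) f) := by
  induction f using MvPolynomial.induction_on with
  | C a =>
    have h1 : ldv A (MvPolynomial.C a) = 0 := (ldv A).map_algebraMap a
    rw [h1, map_zero]
    symm
    refine Finset.sum_eq_zero fun i _ => Finset.sum_eq_zero fun j _ => ?_
    rw [MvPolynomial.pderiv_C, map_zero, mul_zero]
  | add p q hp hq =>
    simp only [map_add, mul_add, Finset.sum_add_distrib, hp, hq]
  | mul_X p ij hp =>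
    have h1 : ∀ i j, A i j * ev (1 : Matrix (Fin n) (Fin n) K)
        (MvPolynomial.pderiv (i, j) (p * MvPolynomial.X ij)) =
        (1 : Matrix (Fin n) (Fin n) K) ij.1 ij.2 * (A i j * ev (1 : Matrix (Fin n) (Fin n) K)
          (MvPolynomial.pderiv (i, j) p)) + (if (i, j) = ij then A i j *
            ev (1 : Matrix (Fin n) (Fin n) K) p else 0) := by
      intro i j
      rw [Derivation.leibniz, map_add, smul_eq_mul, smul_eq_mul, map_mul, map_mul, ev_X,
        MvPolynomial.pderiv_X, Pi.single_apply]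
      by_cases h : ij = (i, j)
      · rw [if_pos h, if_pos h.symm, map_one]
        ring
      · rw [if_neg h, if_neg (fun h' => h h'.symm), map_zero]
        ring
    rw [Derivation.leibniz, map_add, smul_eq_mul, smul_eq_mul, map_mul, map_mul, ev_X, ev_ldv_X,
      hp, Matrix.one_mul, Matrix.map_apply]
    simp only [h1, Finset.sum_add_distrib]
    have h2 : ∑ i, ∑ j, (if (i, j) = ij then A i j * ev (1 : Matrix (Fin n) (Fin n) K) p else 0) =
        A ij.1 ij.2 * ev (1 : Matrix (Fin n) (Fin n) K) p := by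
      rw [← Fintype.sum_prod_type'
        (f := fun i j => if (i, j) = ij then A i j * ev (1 : Matrix (Fin n) (Fin n) K) p else 0)]
      rw [Finset.sum_eq_single ij]
      · rw [if_pos rfl]
      · intro b _ hb
        rw [if_neg hb]
      · intro h
        exact absurd (Finset.mem_univ _) h
    rw [h2]
    simp only [← Finset.mul_sum]
    rw [add_comm (ev _ p * _)]
    congr 1
    exact mul_comm _ _

/-- powers of a diagonalisable matrix: the derivative of the torus is in the Lie algebra -/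
theorem grd_torus [CharZero K] (q : ℕ) (hq : 2 ≤ q) (x Q Qi : Matrix (Fin n) (Fin n) K)
    (hQ : Q * Qi = 1) (lam : Fin n → K) (hx : x * Q = Q * Matrix.diagonal lam) (r : Fin n → ℤ)
    (hl : ∀ i, lam i ^ 2 = (q : K) ^ (r i)) (f : MvPolynomial (Fin n × Fin n) K)
    (hf : ∀ m : ℕ, ev (x ^ m) f = 0) :
    ev (1 : Matrix (Fin n) (Fin n) K)
      (ldv (Q * Matrix.diagonal (fun i => ((r i : ℤ) : K)) * Qi) f) = 0 := by
  have hQ' : Qi * Q = 1 := mul_eq_one_comm.1 hQ
  have hxm : ∀ m : ℕ, x ^ m = Q * Matrix.diagonal (fun i => lam i ^ m) * Qi := by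
    intro m
    have h1 : x ^ m * Q = Q * Matrix.diagonal (fun i => lam i ^ m) := by
      induction m with
      | zero => simp
      | succ m ih =>
        rw [pow_succ, Matrix.mul_assoc, hx, ← Matrix.mul_assoc, ih, Matrix.mul_assoc,
          Matrix.diagonal_mul_diagonal]
        simp only [pow_succ]
    rw [← h1, Matrix.mul_assoc, hQ, Matrix.mul_one]
  let Y : Matrix (Fin n) (Fin n) (MvPolynomial (Fin n) K) :=
    Matrix.of fun i j => ∑ k, MvPolynomial.C (Q i k * Qi k j) * MvPolynomial.X k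
  have hY : ∀ d : Fin n → K, Y.map (MvPolynomial.aeval d : MvPolynomial (Fin n) K →ₐ[K] K) =
      Q * Matrix.diagonal d * Qi := by
    intro d
    ext i j
    rw [Matrix.map_apply, Matrix.mul_apply]
    simp only [Y, Matrix.of_apply, map_sum, map_mul, MvPolynomial.aeval_X, Matrix.mul_diagonal]
    refine Finset.sum_congr rfl fun k _ => ?_
    simp
    ring
  have h1 := grd_poly q hq lam r hl (ev Y f) (fun m => by
    rw [ev_mapA, hY, ← hxm]
    exact hf m)
  rw [der_ev_pt _ _ Y (1 : Matrix (Fin n) (Fin n) K)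
    (Q * Matrix.diagonal (fun i => ((r i : ℤ) : K)) * Qi)] at h1
  · exact h1
  · intro i j
    have h2 := congrFun (congrFun (hY 1) i) j
    rw [Matrix.map_apply] at h2
    rw [h2]
    have h3 : Matrix.diagonal (1 : Fin n → K) = 1 := Matrix.diagonal_one
    rw [h3, Matrix.mul_one, hQ]
  · intro i j
    have hC : ∀ a : K, MvPolynomial.mkDerivation K
        (fun i => (MvPolynomial.C ((r i : ℤ) : K) : MvPolynomial (Fin n) K))
        (MvPolynomial.C a) = 0 := fun a => Derivation.map_algebraMap _ a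
    rw [Matrix.one_mul]
    simp only [Y, Matrix.of_apply, map_sum, Derivation.leibniz, MvPolynomial.mkDerivation_X,
      hC, smul_eq_mul, map_mul, Matrix.map_apply]
    rw [Matrix.mul_apply]
    simp only [Matrix.mul_diagonal]
    refine Finset.sum_congr rfl fun k _ => ?_
    simp
    ring

/-- eigenvectors -/
theorem grd_eigen [CharZero K] (q : ℕ) (hq : 2 ≤ q) (x N : Matrix (Fin n) (Fin n) K)
    (hx : x.det ≠ 0) (h1 : N ^ n = 0) (h2 : N ^ (n - 1) ≠ 0)
    (hxN : x * N = (q : K) • (N * x)) :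
    ∃ (a : K) (u : Fin n → K), a ≠ 0 ∧ x *ᵥ u = a • u ∧ N ^ (n - 1) *ᵥ u ≠ 0 := by
  have hq0 : (q : K) ≠ 0 := by exact_mod_cast (by omega : q ≠ 0)
  have hn : 0 < n := by
    rcases Nat.eq_zero_or_pos n with h | h
    · subst h
      exact absurd (Subsingleton.elim _ _) h2
    · exact h
  -- commutation
  have hcom : ∀ j : ℕ, x * N ^ j = (q : K) ^ j • (N ^ j * x) := by
    intro j
    induction j with
    | zero => simp
    | succ j ih =>
      rw [pow_succ, ← Matrix.mul_assoc, ih, Matrix.smul_mul, Matrix.mul_assoc, hxN,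
        Matrix.mul_smul, smul_smul, ← Matrix.mul_assoc, pow_succ]
  obtain ⟨v0, hv0⟩ : ∃ v0 : Fin n → K, N ^ (n - 1) *ᵥ v0 ≠ 0 := by
    by_contra hcon
    push Not at hcon
    apply h2
    ext i j
    have h3 := congrFun (hcon (Pi.single j 1)) i
    rw [mulVec_single_one] at h3
    exact h3
  set e := N ^ (n - 1) *ᵥ v0 with he
  have hNe : N *ᵥ e = 0 := by
    rw [he, mulVec_mulVec, ← pow_succ', Nat.sub_add_cancel hn, h1, zero_mulVec]
  -- the kernel of N is spanned by e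
  have hker : ∀ v : Fin n → K, N *ᵥ v = 0 → ∃ c : K, v = c • e := by
    intro v hv
    have hfr := Psr.ker_pow_finrank h1 h2 1 hn
    rw [pow_one] at hfr
    have he' : e ∈ LinearMap.ker (Matrix.toLin' N) := by
      rw [LinearMap.mem_ker, Matrix.toLin'_apply]
      exact hNe
    have hv' : v ∈ LinearMap.ker (Matrix.toLin' N) := by
      rw [LinearMap.mem_ker, Matrix.toLin'_apply]
      exact hv
    obtain ⟨c, hc⟩ := exists_smul_eq_of_finrank_eq_one hfr
      (x := (⟨e, he'⟩ : LinearMap.ker (Matrix.toLin' N)))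
      (fun h => hv0 (congrArg Subtype.val h)) ⟨v, hv'⟩
    exact ⟨c, (congrArg Subtype.val hc).symm⟩
  have hinj : ∀ v : Fin n → K, x *ᵥ v = 0 → v = 0 := by
    intro v hv
    by_contra hv1
    exact hx (Matrix.exists_mulVec_eq_zero_iff.1 ⟨v, hv1, hv⟩)
  have hNx : ∀ (j : ℕ) (v : Fin n → K), x *ᵥ (N ^ j *ᵥ v) = (q : K) ^ j • (N ^ j *ᵥ (x *ᵥ v)) := by
    intro j v
    rw [mulVec_mulVec, hcom, smul_mulVec, mulVec_mulVec]
  obtain ⟨μ, hμ⟩ : ∃ μ : K, x *ᵥ e = μ • e := by
    refine hker _ ?_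
    have h3 := hNx 1 e
    rw [pow_one, pow_one, hNe, mulVec_zero] at h3
    exact (smul_eq_zero.1 h3.symm).resolve_left hq0
  have hμ0 : μ ≠ 0 := by
    rintro rfl
    rw [zero_smul] at hμ
    exact hv0 (hinj e hμ)
  set a : K := μ / (q : K) ^ (n - 1) with ha
  have hqn : (q : K) ^ (n - 1) ≠ 0 := pow_ne_zero _ hq0
  have ha0 : a ≠ 0 := div_ne_zero hμ0 hqn
  have haμ : a * (q : K) ^ (n - 1) = μ := by rw [ha, div_mul_cancel₀ _ hqn]
  -- the range of x - a is in the kernel of N^(n-1)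
  have hrange : ∀ v : Fin n → K, N ^ (n - 1) *ᵥ ((x - a • (1 : Matrix (Fin n) (Fin n) K)) *ᵥ v) = 0 := by
    intro v
    obtain ⟨c, hc⟩ := hker (N ^ (n - 1) *ᵥ v) (by
      rw [mulVec_mulVec, ← pow_succ', Nat.sub_add_cancel hn, h1, zero_mulVec])
    have h3 := hNx (n - 1) v
    rw [hc, mulVec_smul, hμ, ← haμ] at h3
    rw [sub_mulVec, smul_mulVec, one_mulVec, mulVec_sub, mulVec_smul, hc, sub_eq_zero]
    have h4 : (q : K) ^ (n - 1) • (N ^ (n - 1) *ᵥ (x *ᵥ v)) =
        (q : K) ^ (n - 1) • (a • c • e) := by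
      rw [← h3, smul_smul, smul_smul, smul_smul]
      congr 1
      ring
    exact smul_right_injective _ hqn h4
  have hdet : (x - a • (1 : Matrix (Fin n) (Fin n) K)).det = 0 := by
    by_contra hd
    have hu : IsUnit (x - a • (1 : Matrix (Fin n) (Fin n) K)).det := isUnit_iff_ne_zero.2 hd
    have h3 := hrange ((x - a • (1 : Matrix (Fin n) (Fin n) K))⁻¹ *ᵥ v0)
    rw [mulVec_mulVec v0, Matrix.mul_nonsing_inv _ hu, one_mulVec] at h3
    exact hv0 h3
  obtain ⟨u, hu0, hu⟩ := Matrix.exists_mulVec_eq_zero_iff.2 hdet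
  have hxu : x *ᵥ u = a • u := by
    rw [sub_mulVec, smul_mulVec, one_mulVec, sub_eq_zero] at hu
    exact hu
  refine ⟨a, u, ha0, hxu, ?_⟩
  -- the first vanishing power
  have hex : ∃ k : ℕ, N ^ k *ᵥ u = 0 := ⟨n, by rw [h1, zero_mulVec]⟩
  set k := Nat.find hex with hk
  have hk1 : N ^ k *ᵥ u = 0 := Nat.find_spec hex
  have hk0 : k ≠ 0 := by
    intro h0
    rw [h0, pow_zero, one_mulVec] at hk1
    exact hu0 hk1
  have hk2 : N ^ (k - 1) *ᵥ u ≠ 0 := Nat.find_min hex (by omega)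
  obtain ⟨c, hc⟩ := hker (N ^ (k - 1) *ᵥ u) (by
    rw [mulVec_mulVec, ← pow_succ', Nat.sub_add_cancel (Nat.pos_of_ne_zero hk0)]
    exact hk1)
  have hc0 : c ≠ 0 := by
    rintro rfl
    rw [zero_smul] at hc
    exact hk2 hc
  have h3 := hNx (k - 1) u
  rw [hxu, mulVec_smul, hc, mulVec_smul, hμ, ← haμ] at h3
  have h4 : ((a * (q : K) ^ (n - 1) - (q : K) ^ (k - 1) * a) * c) • e = 0 := by
    rw [sub_mul, sub_smul, sub_eq_zero]
    rw [smul_smul, smul_smul, smul_smul] at h3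
    convert h3 using 2
    all_goals ring
  have h5 := (smul_eq_zero.1 h4).resolve_right hv0
  have h6 := (mul_eq_zero.1 h5).resolve_right hc0
  have h7 : a * ((q : K) ^ (n - 1) - (q : K) ^ (k - 1)) = 0 := by rw [← h6]; ring
  have h8 := (mul_eq_zero.1 h7).resolve_left ha0
  have h9 : q ^ (n - 1) = q ^ (k - 1) := by exact_mod_cast sub_eq_zero.1 h8
  have h10 := Nat.pow_right_injective hq h9
  rw [h10]
  exact hk2

end

/-- GRD -/
theorem st_GRD : ST_GRD := by
  intro K _ _ n w q ψ N X x hxX hq hψ hxψ h1 h2 hxN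
  have hq0 : (q : K) ≠ 0 := by exact_mod_cast (by omega : q ≠ 0)
  have hn : 0 < n := by
    rcases Nat.eq_zero_or_pos n with h | h
    · subst h
      exact absurd (Subsingleton.elim _ _) h2
    · exact h
  set x' : Matrix (Fin n) (Fin n) K := (x : Matrix (Fin n) (Fin n) K) with hx'
  have hdx : x'.det ≠ 0 := by
    have h3 := (Matrix.isUnit_iff_isUnit_det x').1 (Units.isUnit x)
    exact h3.ne_zero
  obtain ⟨a, u, ha0, hxu, hu⟩ := grd_eigen q hq x' N hdx h1 h2 hxN
  let v : ℕ → Fin n → K := fun j => N ^ j *ᵥ u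
  have hcom : ∀ j : ℕ, x' * N ^ j = (q : K) ^ j • (N ^ j * x') := by
    intro j
    induction j with
    | zero => simp
    | succ j ih =>
      rw [pow_succ, ← Matrix.mul_assoc, ih, Matrix.smul_mul, Matrix.mul_assoc, hxN,
        Matrix.mul_smul, smul_smul, ← Matrix.mul_assoc, pow_succ]
  have hxv : ∀ j, x' *ᵥ v j = (a * (q : K) ^ j) • v j := by
    intro j
    change x' *ᵥ (N ^ j *ᵥ u) = _
    rw [mulVec_mulVec, hcom, smul_mulVec, ← mulVec_mulVec, hxu, mulVec_smul, smul_smul, mul_comm]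
  have hNv : ∀ j, N *ᵥ v j = v (j + 1) := by
    intro j
    change N *ᵥ (N ^ j *ᵥ u) = N ^ (j + 1) *ᵥ u
    rw [mulVec_mulVec, ← pow_succ']
  have hv0 : ∀ j, j < n → v j ≠ 0 := by
    intro j hj h0
    apply hu
    have h3 : N ^ (n - 1) *ᵥ u = N ^ (n - 1 - j) *ᵥ v j := by
      change _ = N ^ (n - 1 - j) *ᵥ (N ^ j *ᵥ u)
      rw [mulVec_mulVec, ← pow_add]
      congr 2
      omega
    rw [h3, h0, mulVec_zero]
  have hvn : v n = 0 := by
    change N ^ n *ᵥ u = 0
    rw [h1, zero_mulVec]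
  -- independence
  have hinjq : Function.Injective fun j : Fin n => a * (q : K) ^ (j : ℕ) := by
    intro i j h
    have h3 : (q : K) ^ (i : ℕ) = (q : K) ^ (j : ℕ) := mul_left_cancel₀ ha0 h
    have h4 : q ^ (i : ℕ) = q ^ (j : ℕ) := by exact_mod_cast h3
    exact Fin.ext (Nat.pow_right_injective hq h4)
  have hli : LinearIndependent K (fun j : Fin n => v j) := by
    refine Module.End.eigenvectors_linearIndependent' (Matrix.toLin' x')
      (fun j : Fin n => a * (q : K) ^ (j : ℕ)) hinjq _ fun j => ?_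
    rw [Module.End.hasEigenvector_iff, Module.End.mem_eigenspace_iff]
    refine ⟨?_, hv0 j j.2⟩
    rw [Matrix.toLin'_apply]
    exact hxv j
  let Q : Matrix (Fin n) (Fin n) K := Matrix.of fun i j => v j i
  have hQu : IsUnit Q := by
    rw [← Matrix.linearIndependent_cols_iff_isUnit]
    exact hli
  have hQd : IsUnit Q.det := (Matrix.isUnit_iff_isUnit_det Q).1 hQu
  have hQQ : Q * Q⁻¹ = 1 := Matrix.mul_nonsing_inv _ hQd
  have hQc : ∀ (A : Matrix (Fin n) (Fin n) K) (i j : Fin n), (A * Q) i j = (A *ᵥ v j) i := by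
    intro A i j
    rw [Matrix.mul_apply]
    rfl
  have hxQ : x' * Q = Q * Matrix.diagonal (fun j : Fin n => a * (q : K) ^ (j : ℕ)) := by
    ext i j
    rw [hQc, hxv, Matrix.mul_diagonal, Pi.smul_apply, smul_eq_mul, mul_comm]
    rfl
  -- the weight
  obtain ⟨j0, hj0⟩ : ∃ j0 : Fin n, a ^ 2 * (q : K) ^ (j0 : ℕ) * (q : K) ^ w = 1 := by
    by_contra hcon
    push Not at hcon
    have h3 : ∀ j : Fin n, v 0 ⬝ᵥ (ψ *ᵥ v j) = 0 := by
      intro j
      have h4 : (q : K) ^ w * ((x' *ᵥ v 0) ⬝ᵥ (ψ *ᵥ (x' *ᵥ v j))) = v 0 ⬝ᵥ (ψ *ᵥ v j) := by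
        conv_rhs => rw [← hxψ]
        rw [smul_mulVec, dotProduct_smul, smul_eq_mul, Matrix.mul_assoc, ← mulVec_mulVec (v j) x'ᵀ,
          dotProduct_mulVec (v 0) x'ᵀ, vecMul_transpose, mulVec_mulVec (v j) ψ x']
      rw [hxv, hxv, pow_zero, mul_one, smul_dotProduct, mulVec_smul, dotProduct_smul, smul_eq_mul,
        smul_eq_mul] at h4
      have h5 : (a ^ 2 * (q : K) ^ (j : ℕ) * (q : K) ^ w - 1) * (v 0 ⬝ᵥ (ψ *ᵥ v j)) = 0 := by
        rw [sub_mul, one_mul, sub_eq_zero]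
        conv_rhs => rw [← h4]
        ring
      exact (mul_eq_zero.1 h5).resolve_left (sub_ne_zero.2 (hcon j))
    have h6 : (v 0 ᵥ* ψ) ᵥ* Q = 0 := by
      funext j
      have h7 := h3 j
      rw [dotProduct_mulVec] at h7
      exact h7
    have h8 : v 0 ᵥ* ψ = 0 := by
      have h9 : (v 0 ᵥ* ψ) ᵥ* Q ᵥ* Q⁻¹ = v 0 ᵥ* ψ := by
        rw [vecMul_vecMul, hQQ, vecMul_one]
      rw [← h9, h6, zero_vecMul]
    have h10 : v 0 = 0 := by
      by_contra h11
      exact hψ (Matrix.exists_vecMul_eq_zero_iff.1 ⟨v 0, h11, h8⟩)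
    exact hv0 0 hn h10
  let r : Fin n → ℤ := fun i => 2 * (i : ℤ) - (j0 : ℤ) - (w : ℤ)
  have hl : ∀ i : Fin n, (a * (q : K) ^ (i : ℕ)) ^ 2 = (q : K) ^ (r i) := by
    intro i
    have h3 : (q : K) ^ (r i) * ((q : K) ^ (j0 : ℕ) * (q : K) ^ w) = ((q : K) ^ (i : ℕ)) ^ 2 := by
      rw [← zpow_natCast (q : K) (j0 : ℕ), ← zpow_natCast (q : K) w, ← zpow_natCast (q : K) (i : ℕ),
        ← zpow_add₀ hq0, ← zpow_add₀ hq0, ← zpow_natCast, ← _root_.zpow_mul]
      congr 1
      change 2 * (i : ℤ) - (j0 : ℤ) - (w : ℤ) + ((j0 : ℕ) + (w : ℤ)) = (i : ℤ) * ((2 : ℕ) : ℤ)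
      push_cast
      ring
    have h4 : (q : K) ^ (j0 : ℕ) * (q : K) ^ w ≠ 0 :=
      mul_ne_zero (pow_ne_zero _ hq0) (pow_ne_zero _ hq0)
    apply mul_right_cancel₀ h4
    rw [h3, mul_pow]
    calc a ^ 2 * ((q : K) ^ (i : ℕ)) ^ 2 * ((q : K) ^ (j0 : ℕ) * (q : K) ^ w)
        = (a ^ 2 * (q : K) ^ (j0 : ℕ) * (q : K) ^ w) * ((q : K) ^ (i : ℕ)) ^ 2 := by ring
      _ = ((q : K) ^ (i : ℕ)) ^ 2 := by rw [hj0, one_mul]
  set M : Matrix (Fin n) (Fin n) K :=
    Q * Matrix.diagonal (fun i => ((r i : ℤ) : K)) * Q⁻¹ with hM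
  have hMX : M ∈ LieZ X := by
    intro f hf
    rw [← grd_ldv]
    refine grd_torus q hq x' Q Q⁻¹ hQQ _ hxQ r hl f fun m => ?_
    have h3 := hf (x ^ m) (X.pow_mem hxX m)
    rw [Units.val_pow_eq_pow_val] at h3
    exact h3
  refine ⟨(2 : K)⁻¹ • M, (LieZ X).smul_mem _ hMX, ?_⟩
  -- the commutator
  have hMQ : M * Q = Q * Matrix.diagonal (fun i => ((r i : ℤ) : K)) := by
    rw [hM, Matrix.mul_assoc, Matrix.nonsing_inv_mul _ hQd, Matrix.mul_one]
  have hMv : ∀ j : Fin n, M *ᵥ v j = ((r j : ℤ) : K) • v j := by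
    intro j
    funext i
    have h3 := congrFun (congrFun hMQ i) j
    rw [hQc, Matrix.mul_diagonal] at h3
    rw [h3, Pi.smul_apply, smul_eq_mul, mul_comm]
    rfl
  have hcomm : M * N - N * M = (2 : K) • N := by
    have h3 : (M * N - N * M) * Q = ((2 : K) • N) * Q := by
      ext i j
      rw [hQc, hQc, sub_mulVec, ← mulVec_mulVec (v j) M N, ← mulVec_mulVec (v j) N M, hNv, hMv,
        mulVec_smul, hNv, smul_mulVec, hNv]
      by_cases hj : (j : ℕ) + 1 < n
      · have h4 := hMv ⟨(j : ℕ) + 1, hj⟩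
        have h5 : ((r ⟨(j : ℕ) + 1, hj⟩ : ℤ) : K) - ((r j : ℤ) : K) = 2 := by
          change (((2 * (((j : ℕ) + 1 : ℕ) : ℤ) - (j0 : ℤ) - (w : ℤ) : ℤ)) : K) -
            ((2 * (((j : ℕ) : ℕ) : ℤ) - (j0 : ℤ) - (w : ℤ) : ℤ) : K) = 2
          push_cast
          ring
        rw [h4, ← sub_smul, h5]
      · have h4 : (j : ℕ) + 1 = n := by
          have := j.2
          omega
        rw [h4, hvn, mulVec_zero, smul_zero, sub_zero, smul_zero]
    have h5 := congrArg (fun A => A * Q⁻¹) h3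
    simp only [Matrix.mul_assoc, hQQ, Matrix.mul_one] at h5
    exact h5
  rw [Matrix.smul_mul, Matrix.mul_smul, ← smul_sub, hcomm, smul_smul, inv_mul_cancel₀ two_ne_zero,
    one_smul]

end MT
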