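import Mathlib

/-!
# MT, module GRD, part 1: polynomials vanishing on the powers of a point of a torus
-/

set_option autoImplicit false

open scoped Classical

namespace MT

section

variable {K : Type*} [Field K] {n : ℕ}

/-- the derivative along a one-parameter subgroup -/
lemma grd_der (r : Fin n → K) (g : MvPolynomial (Fin n) K) :
    MvPolynomial.aeval (1 : Fin n → K) (MvPolynomial.mkDerivation K
      (fun i => (MvPolynomial.C (r i) : MvPolynomial (Fin n) K)) g) =
      ∑ μ ∈ g.support, g.coeff μ * ∑ i, (μ i : K) * r i := by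
  have hmon : ∀ (μ : Fin n →₀ ℕ) (c : K), MvPolynomial.aeval (1 : Fin n → K)
      (MvPolynomial.mkDerivation K (fun i => (MvPolynomial.C (r i) : MvPolynomial (Fin n) K))
        (MvPolynomial.monomial μ c)) = c * ∑ i, (μ i : K) * r i := by
    intro μ c
    rw [MvPolynomial.mkDerivation_monomial, map_smul, smul_eq_mul, Finsupp.sum, map_sum]
    congr 1
    have h1 : ∀ i ∈ μ.support, MvPolynomial.aeval (1 : Fin n → K)
        (MvPolynomial.monomial (μ - Finsupp.single i 1) ((μ i : ℕ) : K) •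
          (MvPolynomial.C (r i) : MvPolynomial (Fin n) K)) = (μ i : K) * r i := by
      intro i _
      rw [smul_eq_mul, map_mul, MvPolynomial.aeval_monomial]
      simp [Finsupp.prod]
    rw [Finset.sum_congr rfl h1]
    refine Finset.sum_subset (Finset.subset_univ _) fun i _ hi => ?_
    rw [Finsupp.notMem_support_iff] at hi
    rw [hi, Nat.cast_zero, zero_mul]
  conv_lhs => rw [← MvPolynomial.support_sum_monomial_coeff g]
  rw [map_sum, map_sum]
  exact Finset.sum_congr rfl fun μ _ => hmon μ _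

/-- A polynomial which vanishes at all powers of a point of a torus has derivative zero in the
direction of the torus. -/
theorem grd_poly [CharZero K] (q : ℕ) (hq : 2 ≤ q) (lam : Fin n → K) (r : Fin n → ℤ)
    (hl : ∀ i, lam i ^ 2 = (q : K) ^ (r i)) (g : MvPolynomial (Fin n) K)
    (hg : ∀ m : ℕ, MvPolynomial.aeval (fun i => lam i ^ m) g = 0) :
    MvPolynomial.aeval (1 : Fin n → K) (MvPolynomial.mkDerivation K
      (fun i => (MvPolynomial.C ((r i : ℤ) : K) : MvPolynomial (Fin n) K)) g) = 0 := by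
  have hq0 : (q : K) ≠ 0 := by exact_mod_cast (by omega : q ≠ 0)
  let Λ : (Fin n →₀ ℕ) → K := fun μ => ∏ i, lam i ^ μ i
  let R : (Fin n →₀ ℕ) → ℤ := fun μ => ∑ i, (μ i : ℤ) * r i
  have hΛ : ∀ μ, Λ μ ^ 2 = (q : K) ^ R μ := by
    intro μ
    change (∏ i, lam i ^ μ i) ^ 2 = (q : K) ^ (∑ i, (μ i : ℤ) * r i)
    rw [← Finset.prod_pow]
    have h1 : ∀ i ∈ (Finset.univ : Finset (Fin n)), (lam i ^ μ i) ^ 2 =
        (q : K) ^ ((μ i : ℤ) * r i) := by
      intro i _
      rw [← pow_mul, mul_comm, pow_mul, hl, mul_comm, zpow_mul, zpow_natCast]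
    rw [Finset.prod_congr rfl h1]
    induction (Finset.univ : Finset (Fin n)) using Finset.induction_on with
    | empty => simp
    | insert a s ha ih => rw [Finset.prod_insert ha, Finset.sum_insert ha, zpow_add₀ hq0, ih]
  have hinj : ∀ μ ν, Λ μ = Λ ν → R μ = R ν := by
    intro μ ν h
    have h1 : (q : K) ^ R μ = (q : K) ^ R ν := by rw [← hΛ, ← hΛ, h]
    have h2 : (((q : ℚ) ^ R μ : ℚ) : K) = (((q : ℚ) ^ R ν : ℚ) : K) := by
      push_cast
      exact h1
    have h3 : (q : ℚ) ^ R μ = (q : ℚ) ^ R ν := by exact_mod_cast h2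
    have hq1 : (1 : ℚ) < (q : ℚ) := by exact_mod_cast (by omega : 1 < q)
    exact zpow_right_injective₀ (by linarith) hq1.ne' h3
  have hm : ∀ m : ℕ, ∑ μ ∈ g.support, g.coeff μ * (Λ μ) ^ m = 0 := by
    intro m
    have h1 := hg m
    rw [MvPolynomial.aeval_def, MvPolynomial.eval₂_eq'] at h1
    rw [← h1]
    refine Finset.sum_congr rfl fun μ _ => ?_
    congr 1
    change (∏ i, lam i ^ μ i) ^ m = _
    rw [← Finset.prod_pow]
    refine Finset.prod_congr rfl fun i _ => ?_
    rw [← pow_mul, ← pow_mul, mul_comm]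
  have hp : ∀ p : Polynomial K, ∑ μ ∈ g.support, g.coeff μ * p.eval (Λ μ) = 0 := by
    intro p
    have h1 : ∀ μ ∈ g.support, g.coeff μ * p.eval (Λ μ) =
        ∑ m ∈ Finset.range (p.natDegree + 1), p.coeff m * (g.coeff μ * (Λ μ) ^ m) := by
      intro μ _
      rw [Polynomial.eval_eq_sum_range, Finset.mul_sum]
      refine Finset.sum_congr rfl fun m _ => ?_
      ring
    rw [Finset.sum_congr rfl h1, Finset.sum_comm]
    refine Finset.sum_eq_zero fun m _ => ?_
    rw [← Finset.mul_sum, hm, mul_zero]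
  -- interpolation
  let s : Finset K := g.support.image Λ
  let val : K → K := fun κ => if h : ∃ μ ∈ g.support, Λ μ = κ then ((R h.choose : ℤ) : K) else 0
  have hval : ∀ μ ∈ g.support, val (Λ μ) = ((R μ : ℤ) : K) := by
    intro μ hμ
    have hex : ∃ ν ∈ g.support, Λ ν = Λ μ := ⟨μ, hμ, rfl⟩
    change (if h : ∃ ν ∈ g.support, Λ ν = Λ μ then ((R h.choose : ℤ) : K) else 0) = _
    rw [dif_pos hex, hinj _ _ hex.choose_spec.2]
  have h1 := hp (Lagrange.interpolate s id val)
  rw [grd_der]
  rw [← h1]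
  refine Finset.sum_congr rfl fun μ hμ => ?_
  congr 1
  have h2 : (Lagrange.interpolate s id val).eval (id (Λ μ)) = val (Λ μ) :=
    Lagrange.eval_interpolate_at_node (v := id) val (fun a _ b _ h => h)
      (Finset.mem_image_of_mem Λ hμ)
  rw [id_eq] at h2
  rw [h2, hval μ hμ]
  change _ = ((∑ i, (μ i : ℤ) * r i : ℤ) : K)
  push_cast
  rfl

end

end MT
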